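import Pool.Agent.Q238.PermGame.Parity

/-!
The permutation-building game under Convention I: `A` wins exactly for `N = 1, 2`.
-/

namespace Pool.Agent.Results.MP_337ab5_co.ConventionI

open Pool.Agent.Q238.PermGame

/-- Under Convention I player `A` has a winning strategy exactly when `N ≤ 2`, and player `B` has
one exactly when `N ≥ 3`. -/
theorem result (N : ℕ) (hN : 1 ≤ N) :
    (AWins N (turnI N) (2 * N) (start N hN) ↔ N ≤ 2) ∧
    (BWins N (turnI N) (2 * N) (start N hN) ↔ 3 ≤ N) := by
  have hA : N ≤ 2 → AWins N (turnI N) (2 * N) (start N hN) := by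
    intro h
    have h12 : N = 1 ∨ N = 2 := by omega
    rcases h12 with rfl | rfl
    · exact aWins_one _
    · exact aWins_two _ (by unfold turnI; norm_num)
  have hB : 3 ≤ N → BWins N (turnI N) (2 * N) (start N hN) := by
    intro h
    rcases Nat.even_or_odd N with he | ho
    · obtain ⟨k, hk⟩ := id he
      apply block_wins he (by omega)
      intro t _
      unfold turnI
      have : t % N % 2 = t % 2 := by
        apply Nat.mod_mod_of_dvd
        exact he.two_dvd
      rw [this]
    · obtain ⟨k, hk⟩ := ho
      apply parity_wins h
      · unfold turnI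
        rw [Nat.mod_eq_of_lt (show N - 2 < N by omega)]
        omega
      · unfold turnI
        rw [Nat.add_mod_left, Nat.mod_eq_of_lt (show N - 2 < N by omega)]
        omega
  have hnb := not_both N (turnI N) (2 * N) (start N hN)
  constructor
  · refine ⟨fun h => ?_, hA⟩
    by_contra hcon
    exact hnb ⟨h, hB (by omega)⟩
  · refine ⟨fun h => ?_, hB⟩
    by_contra hcon
    exact hnb ⟨hA (by omega), h⟩

end Pool.Agent.Results.MP_337ab5_co.ConventionI
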